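import Mathlib

/-!
MP_207d4d, Q1: intervals of the induced-subgraph poset, and of its subposet of connected graphs,
need not be unimodal, already for simple graphs.
-/

namespace Pool.Agent.Results.MP_207d4d_co.NotUnimodal

/-- A finite graph with vertex set `Fin n`; `w i j` is the number of edges joining `i` and `j`
(for `i = j`: the number of loops at `i`). -/
structure MG where
  n : ℕ
  w : Fin n → Fin n → ℕ
  symm : ∀ i j, w i j = w j i

/-- Isomorphism of graphs. -/
def Iso (K L : MG) : Prop := ∃ e : Fin K.n ≃ Fin L.n, ∀ i j, K.w i j = L.w (e i) (e j)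

/-- `K` is isomorphic to an induced subgraph of `L`. -/
def Emb (K L : MG) : Prop :=
  ∃ f : Fin K.n → Fin L.n, Function.Injective f ∧ ∀ i j, K.w i j = L.w (f i) (f j)

/-- Any two vertices are joined by a path, and there is at least one vertex. -/
def Conn (K : MG) : Prop :=
  0 < K.n ∧ ∀ i j : Fin K.n, Relation.ReflTransGen (fun a b => K.w a b ≠ 0) i j

/-- A simple graph: no loops and no multiple edges. -/
def Simple (K : MG) : Prop := (∀ i, K.w i i = 0) ∧ ∀ i j, K.w i j ≤ 1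

lemma iso_equiv : Equivalence Iso := by
  refine ⟨fun K => ⟨Equiv.refl _, fun _ _ => rfl⟩, ?_, ?_⟩
  · rintro K L ⟨e, h⟩
    exact ⟨e.symm, fun i j => by rw [h]; simp⟩
  · rintro K L M ⟨e, h⟩ ⟨e', h'⟩
    exact ⟨e.trans e', fun i j => by rw [h, h']; rfl⟩

instance isoSetoid : Setoid MG := ⟨Iso, iso_equiv⟩

lemma iso_n {K L : MG} (h : Iso K L) : K.n = L.n := by
  obtain ⟨e, -⟩ := h
  simpa using Fintype.card_congr e

/-- Unlabelled graphs: graphs up to isomorphism. -/
def UG : Type := Quotient isoSetoid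

/-- The unlabelled graph of a labelled one. -/
def mk (K : MG) : UG := Quotient.mk isoSetoid K

/-- The number of vertices. -/
def size (K : UG) : ℕ :=
  Quotient.lift (fun K : MG => K.n) (fun _ _ (h : Iso _ _) => iso_n h) K

/-- The order of the poset of unlabelled graphs. -/
def Le (K L : UG) : Prop := ∃ K' L' : MG, mk K' = K ∧ mk L' = L ∧ Emb K' L'

/-- Connected unlabelled graphs. -/
def UConn (K : UG) : Prop := ∃ K' : MG, mk K' = K ∧ Conn K'

/-- The rank numbers `r_k` of the interval `[H, G]` in the poset of all graphs. -/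
noncomputable def r (H G : UG) (k : ℕ) : ℕ :=
  Set.ncard {K : UG | Le H K ∧ Le K G ∧ size K = size H + k}

/-- The rank numbers `r_k` of the interval `[H, G]^c` in the poset of connected graphs. -/
noncomputable def rc (H G : UG) (k : ℕ) : ℕ :=
  Set.ncard {K : UG | UConn K ∧ Le H K ∧ Le K G ∧ size K = size H + k}

/-- The sequence `r_0, ..., r_N` is unimodal. -/
def Unimodal (N : ℕ) (r : ℕ → ℕ) : Prop :=
  ∃ m ≤ N, (∀ i j, i ≤ j → j ≤ m → r i ≤ r j) ∧ (∀ i j, m ≤ i → i ≤ j → j ≤ N → r j ≤ r i)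

/-! ### General lemmas -/

lemma mk_eq {K L : MG} : mk K = mk L ↔ Iso K L := Quotient.eq (r := isoSetoid)

lemma emb_iso {K K' L L' : MG} (h1 : Iso K K') (h2 : Iso L L') (h : Emb K L) : Emb K' L' := by
  obtain ⟨e, he⟩ := h1
  obtain ⟨e', he'⟩ := h2
  obtain ⟨f, hf, hfw⟩ := h
  refine ⟨fun i => e' (f (e.symm i)), fun i j hij => ?_, fun i j => ?_⟩
  · exact e.symm.injective (hf (e'.injective hij))
  · rw [← he', ← hfw, he]; simp

lemma le_mk {K L : MG} : Le (mk K) (mk L) ↔ Emb K L := by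
  constructor
  · rintro ⟨K', L', h1, h2, h3⟩
    exact emb_iso (mk_eq.mp h1) (mk_eq.mp h2) h3
  · intro h
    exact ⟨K, L, rfl, rfl, h⟩

lemma conn_iso {K L : MG} (h : Iso K L) (hc : Conn K) : Conn L := by
  obtain ⟨e, he⟩ := h
  obtain ⟨h0, h1⟩ := hc
  refine ⟨?_, fun i j => ?_⟩
  · have : K.n = L.n := by simpa using Fintype.card_congr e
    omega
  · have := h1 (e.symm i) (e.symm j)
    have h2 : ∀ x, Relation.ReflTransGen (fun a b => K.w a b ≠ 0) (e.symm i) x →
        Relation.ReflTransGen (fun a b => L.w a b ≠ 0) i (e x) := by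
      intro x hx
      induction hx with
      | refl => simp [Relation.ReflTransGen.refl]
      | tail _ h2 ih =>
        refine Relation.ReflTransGen.tail ih ?_
        rw [← he]; exact h2
    simpa using h2 _ this

lemma uconn_mk {K : MG} : UConn (mk K) ↔ Conn K := by
  constructor
  · rintro ⟨K', h1, h2⟩
    exact conn_iso (mk_eq.mp h1) h2
  · intro h; exact ⟨K, rfl, h⟩

/-- the induced subgraph on a tuple of vertices -/
def ind (G : MG) {k : ℕ} (f : Fin k → Fin G.n) : MG where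
  n := k
  w := fun i j => G.w (f i) (f j)
  symm := fun i j => G.symm _ _

lemma emb_ind {k : ℕ} (G : MG) (f : Fin k → Fin G.n) (hf : Function.Injective f) :
    Emb (ind G f) G := ⟨f, hf, fun _ _ => rfl⟩

lemma exists_ind (G : MG) (k : ℕ) (K : UG) (h1 : Le K (mk G)) (h2 : size K = k) :
    ∃ f : Fin k → Fin G.n, Function.Injective f ∧ K = mk (ind G f) := by
  induction K using Quotient.inductionOn with
  | _ K =>
    have h1' : Le (mk K) (mk G) := h1
    rw [le_mk] at h1'
    have h2' : K.n = k := h2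
    subst h2'
    obtain ⟨f, hf, hw⟩ := h1'
    exact ⟨f, hf, mk_eq.mpr ⟨Equiv.refl _, hw⟩⟩

lemma finite_le (G : MG) (k : ℕ) : {K : UG | Le K (mk G) ∧ size K = k}.Finite := by
  apply Set.Finite.subset (Set.finite_range fun f : Fin k → Fin G.n => mk (ind G f))
  rintro K ⟨h1, h2⟩
  obtain ⟨f, -, rfl⟩ := exists_ind G k K h1 h2
  exact ⟨f, rfl⟩

/-- invariants separating the graphs we need -/
def I1 (K : MG) : ℕ := ∑ i, ∑ j, K.w i j

def I2 (K : MG) : ℕ := ∑ i, (∑ j, K.w i j) ^ 2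

lemma I1_iso {K L : MG} (h : Iso K L) : I1 K = I1 L := by
  obtain ⟨e, he⟩ := h
  rw [I1, I1, ← Equiv.sum_comp e]
  refine Finset.sum_congr rfl fun i _ => ?_
  rw [← Equiv.sum_comp e]
  exact Finset.sum_congr rfl fun j _ => he i j

lemma I2_iso {K L : MG} (h : Iso K L) : I2 K = I2 L := by
  obtain ⟨e, he⟩ := h
  rw [I2, I2, ← Equiv.sum_comp e]
  refine Finset.sum_congr rfl fun i _ => ?_
  congr 1
  rw [← Equiv.sum_comp e]
  exact Finset.sum_congr rfl fun j _ => he i j

/-- lower bounds for rank numbers -/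
lemma lower (S : Set UG) (hS : S.Finite) (t : ℕ) (g : Fin t → MG) (hg : ∀ i, mk (g i) ∈ S)
    (hinv : ∀ i j, I1 (g i) = I1 (g j) → I2 (g i) = I2 (g j) → i = j) : t ≤ S.ncard := by
  have hinj : Function.Injective fun i => mk (g i) := by
    intro i j hij
    have := mk_eq.mp hij
    exact hinv i j (I1_iso this) (I2_iso this)
  have h1 : (Set.range fun i => mk (g i)).ncard = t := by
    rw [← Set.image_univ, Set.ncard_image_of_injective _ hinj, Set.ncard_univ]
    simp
  rw [← h1]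
  apply Set.ncard_le_ncard _ hS
  rintro _ ⟨i, rfl⟩
  exact hg i

/-- upper bounds for rank numbers -/
lemma upper (S : Set UG) (t : ℕ) (g : Fin t → MG) (hg : ∀ K ∈ S, ∃ i, K = mk (g i)) :
    S.ncard ≤ t := by
  have h1 : S ⊆ Set.range fun i => mk (g i) := by
    intro K hK
    obtain ⟨i, rfl⟩ := hg K hK
    exact ⟨i, rfl⟩
  calc S.ncard ≤ (Set.range fun i => mk (g i)).ncard :=
        Set.ncard_le_ncard h1 (Set.finite_range _)
    _ ≤ t := by
        rw [← Set.image_univ]
        refine (Set.ncard_image_le Set.finite_univ).trans ?_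
        rw [Set.ncard_univ]; simp

/-- matching an injective tuple with a tuple having the same set of vertices -/
lemma match_tuple {G : MG} {k : ℕ} (f t R : Fin k → Fin G.n) (hf : Function.Injective f)
    (him : Finset.univ.image t = Finset.univ.image f)
    (hw : ∀ a b, G.w (t a) (t b) = G.w (R a) (R b)) : mk (ind G f) = mk (ind G R) := by
  have hex : ∀ a, ∃ b, t b = f a := by
    intro a
    have : f a ∈ Finset.univ.image t := by
      rw [him]; exact Finset.mem_image_of_mem _ (Finset.mem_univ _)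
    rw [Finset.mem_image] at this
    obtain ⟨b, -, hb⟩ := this
    exact ⟨b, hb⟩
  choose σ hσ using hex
  have hinj : Function.Injective σ := by
    intro a b hab
    apply hf
    rw [← hσ a, ← hσ b, hab]
  rw [mk_eq]
  have key : ∀ a b : Fin k, G.w (f a) (f b) = G.w (R (σ a)) (R (σ b)) := by
    intro a b
    rw [← hw, hσ, hσ]
  exact ⟨Equiv.ofBijective σ (Finite.injective_iff_bijective.mp hinj), key⟩

/-- connectedness from the existence of parents -/
lemma conn_of_exists (K : MG) (h0 : 0 < K.n)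
    (hp : ∀ i : Fin K.n, (i : ℕ) ≠ 0 → ∃ j : Fin K.n, (j : ℕ) < i ∧ K.w j i ≠ 0) : Conn K := by
  have key : ∀ m : ℕ, ∀ i : Fin K.n, (i : ℕ) = m →
      Relation.ReflTransGen (fun a b => K.w a b ≠ 0) ⟨0, h0⟩ i := by
    intro m
    induction m using Nat.strong_induction_on with
    | _ m ih =>
      intro i hi
      by_cases hm : (i : ℕ) = 0
      · have : i = ⟨0, h0⟩ := Fin.ext hm
        rw [this]
      · obtain ⟨j, h1, h2⟩ := hp i hm
        exact Relation.ReflTransGen.tail (ih j (by omega) j rfl) h2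
  have hback : ∀ i x : Fin K.n, Relation.ReflTransGen (fun a b => K.w a b ≠ 0) i x →
      Relation.ReflTransGen (fun a b => K.w a b ≠ 0) x i := by
    intro i x hx
    induction hx with
    | refl => exact Relation.ReflTransGen.refl
    | tail _ h2 ih =>
      refine Relation.ReflTransGen.head ?_ ih
      rw [K.symm]; exact h2
  exact ⟨h0, fun i j => (hback _ _ (key i i rfl)).trans (key j j rfl)⟩

/-- connectedness from a parent function -/
lemma conn_of_parent (K : MG) (h0 : 0 < K.n) (p : Fin K.n → Fin K.n)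
    (hp : ∀ i : Fin K.n, (i : ℕ) ≠ 0 → (p i : ℕ) < i ∧ K.w (p i) i ≠ 0) : Conn K :=
  conn_of_exists K h0 fun i hi => ⟨p i, hp i hi⟩

/-- a connected graph has no empty cut -/
lemma cut {K : MG} (hK : Conn K) (A : Finset (Fin K.n)) (i j : Fin K.n) (hi : i ∈ A) (hj : j ∉ A) :
    ∃ a ∈ A, ∃ b, b ∉ A ∧ K.w a b ≠ 0 := by
  by_contra hcon
  push Not at hcon
  have : ∀ x, Relation.ReflTransGen (fun a b => K.w a b ≠ 0) i x → x ∈ A := by
    intro x hx
    induction hx with
    | refl => exact hi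
    | tail _ h2 ih =>
      by_contra hb
      exact h2 (hcon _ ih _ hb)
  exact hj (this j (hK.2 i j))

/-- the one-vertex graph -/
def K1 : MG where
  n := 1
  w := fun _ _ => 0
  symm := fun _ _ => rfl

lemma K1_le (K : MG) (h0 : 0 < K.n) (hs : ∀ i, K.w i i = 0) : Emb K1 K := by
  exact ⟨fun _ => ⟨0, h0⟩, fun i j _ => Subsingleton.elim (α := Fin 1) i j,
    fun _ _ => (hs _).symm⟩

/-! ### Checking with natural numbers -/

/-- the tuple of vertices given by a list -/
def tup (N : ℕ) [NeZero N] (k : ℕ) (t : List ℕ) (a : Fin k) : Fin N := Fin.ofNat N (t.getD a 0)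

/-- the list has `k` distinct entries below `N` -/
def okL (N k : ℕ) (t : List ℕ) : Bool :=
  t.length == k && t.all (fun x => decide (x < N)) && decide t.Nodup

def matchL (w : ℕ → ℕ → ℕ) (k : ℕ) (t R : List ℕ) : Bool :=
  (List.range k).all fun a => (List.range k).all fun b =>
    w (t.getD a 0) (t.getD b 0) == w (R.getD a 0) (R.getD b 0)

def bits (N c : ℕ) : ℕ := ((List.range N).map fun x => if c.testBit x then 1 else 0).sum

/-- `t` lists the elements of the set with bit mask `c` -/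
def hasMask (N c : ℕ) (t : List ℕ) : Bool :=
  (List.range N).all fun x => c.testBit x == t.contains x

/-- `A` is a proper nonempty part of `c` without edges to the rest of `c` -/
def isCut (w : ℕ → ℕ → ℕ) (N c A : ℕ) : Bool :=
  (List.range N).any (fun x => A.testBit x && c.testBit x) &&
  (List.range N).any (fun x => !A.testBit x && c.testBit x) &&
  (List.range N).all fun x => (List.range N).all fun y =>
    !(A.testBit x && c.testBit x && !A.testBit y && c.testBit y) || w x y == 0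

/-- every `k`-subset is listed in the table, with one of the given types, or is disconnected -/
def check (w : ℕ → ℕ → ℕ) (N k : ℕ) (tab reps : List (List ℕ)) (cuts : List ℕ) : Bool :=
  (List.range (2 ^ N)).all fun c => bits N c != k ||
    (tab.any fun t => hasMask N c t && okL N k t && reps.any fun R => matchL w k t R) ||
    (cuts.any fun A => isCut w N c A)

lemma tup_val {N : ℕ} [NeZero N] {k : ℕ} {t : List ℕ} (h : okL N k t = true) (a : Fin k) :
    ((tup N k t a : Fin N) : ℕ) = t.getD a 0 := by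
  rw [okL, Bool.and_eq_true, Bool.and_eq_true, beq_iff_eq, List.all_eq_true] at h
  obtain ⟨⟨h1, h2⟩, -⟩ := h
  have ha : (a : ℕ) < t.length := by rw [h1]; exact a.isLt
  have := h2 (t.getD a 0) (by rw [List.getD_eq_getElem _ _ ha]; exact List.getElem_mem ha)
  rw [decide_eq_true_eq] at this
  simp only [tup, Fin.val_ofNat]
  exact Nat.mod_eq_of_lt this

lemma image_tup {N : ℕ} [NeZero N] {k : ℕ} {t : List ℕ} (h : okL N k t = true)
    (s : Finset (Fin N)) (hm : hasMask N (Nat.ofBits fun x => decide (x ∈ s)) t = true) :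
    Finset.univ.image (tup N k t) = s := by
  have h' := h
  rw [okL, Bool.and_eq_true, Bool.and_eq_true, beq_iff_eq] at h'
  obtain ⟨⟨h1, -⟩, -⟩ := h'
  rw [hasMask, List.all_eq_true] at hm
  ext x
  have hx := hm x (List.mem_range.mpr x.isLt)
  rw [beq_iff_eq, Nat.testBit_ofBits_lt _ _ x.isLt] at hx
  have hx' : x ∈ s ↔ (x : ℕ) ∈ t := by
    rw [← List.contains_iff_mem, ← hx, decide_eq_true_eq]
  rw [hx', Finset.mem_image]
  constructor
  · rintro ⟨a, -, ha⟩
    rw [← ha, tup_val h a, List.getD_eq_getElem _ _ (by rw [h1]; exact a.isLt)]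
    exact List.getElem_mem _
  · intro hxt
    obtain ⟨j, hj, hj'⟩ := List.getElem_of_mem hxt
    refine ⟨⟨j, by rw [← h1]; exact hj⟩, Finset.mem_univ _, ?_⟩
    apply Fin.ext
    rw [tup_val h]
    simp only
    rw [List.getD_eq_getElem _ _ hj, hj']

lemma list_sum_range (N : ℕ) (f : ℕ → ℕ) : ((List.range N).map f).sum = ∑ x : Fin N, f x := by
  rw [← Finset.sum_range]
  induction N with
  | zero => simp
  | succ n ih =>
    rw [List.range_succ, List.map_append, List.sum_append, ih, Finset.sum_range_succ]; simp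

lemma bits_ofBits {N : ℕ} (s : Finset (Fin N)) :
    bits N (Nat.ofBits fun x => decide (x ∈ s)) = s.card := by
  rw [bits, list_sum_range]
  have h2 : ∀ x : Fin N, (if (Nat.ofBits fun x => decide (x ∈ s)).testBit x then 1 else 0) =
      if x ∈ s then 1 else 0 := by
    intro x
    rw [Nat.testBit_ofBits_lt _ _ x.isLt]
    by_cases h : x ∈ s <;> simp [h]
  simp only [h2]
  rw [Finset.sum_ite_mem, Finset.univ_inter, Finset.card_eq_sum_ones]

/-- soundness of the check -/
lemma check_sound (G : MG) (w : ℕ → ℕ → ℕ) [NeZero G.n] (hw : ∀ i j, G.w i j = w i j) (k : ℕ)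
    (tab reps : List (List ℕ)) (cuts : List ℕ) (hc : check w G.n k tab reps cuts = true)
    (hr : ∀ R ∈ reps, okL G.n k R = true) (f : Fin k → Fin G.n) (hf : Function.Injective f) :
    (∃ R ∈ reps, mk (ind G f) = mk (ind G (tup G.n k R))) ∨ (cuts ≠ [] ∧ ¬ Conn (ind G f)) := by
  set s : Finset (Fin G.n) := Finset.univ.image f with hs
  have hcard : s.card = k := by
    rw [hs, Finset.card_image_of_injective _ hf]; simp
  rw [check, List.all_eq_true] at hc
  have h1 := hc (Nat.ofBits fun x => decide (x ∈ s)) (List.mem_range.mpr (Nat.ofBits_lt_two_pow _))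
  rw [bits_ofBits, hcard] at h1
  rw [Bool.or_eq_true, Bool.or_eq_true] at h1
  rcases h1 with (h1 | h1) | h1
  · simp at h1
  · left
    rw [List.any_eq_true] at h1
    obtain ⟨t, ht, h1⟩ := h1
    rw [Bool.and_eq_true, Bool.and_eq_true, List.any_eq_true] at h1
    obtain ⟨⟨h2, h3⟩, R, hR, h4⟩ := h1
    refine ⟨R, hR, match_tuple f (tup G.n k t) _ hf ?_ ?_⟩
    · exact image_tup h3 s h2
    · intro a b
      rw [hw, hw, tup_val h3, tup_val h3, tup_val (hr R hR), tup_val (hr R hR)]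
      rw [matchL, List.all_eq_true] at h4
      have := h4 a (List.mem_range.mpr a.isLt)
      rw [List.all_eq_true] at this
      have := this b (List.mem_range.mpr b.isLt)
      rwa [beq_iff_eq] at this
  · right
    rw [List.any_eq_true] at h1
    obtain ⟨A, hA, h1⟩ := h1
    refine ⟨List.ne_nil_of_mem hA, fun hconn => ?_⟩
    rw [isCut, Bool.and_eq_true, Bool.and_eq_true, List.any_eq_true, List.any_eq_true,
      List.all_eq_true] at h1
    obtain ⟨⟨⟨x, hx, hx'⟩, ⟨y, hy, hy'⟩⟩, h3⟩ := h1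
    rw [List.mem_range] at hx hy
    have hmask : ∀ z (hz : z < G.n), (Nat.ofBits fun x => decide (x ∈ s)).testBit z =
        decide ((⟨z, hz⟩ : Fin G.n) ∈ s) := fun z hz => Nat.testBit_ofBits_lt _ _ hz
    rw [hmask x hx, Bool.and_eq_true, decide_eq_true_eq] at hx'
    rw [hmask y hy, Bool.and_eq_true, decide_eq_true_eq] at hy'
    rw [hs, Finset.mem_image] at hx' hy'
    obtain ⟨hxA, a, -, ha⟩ := hx'
    obtain ⟨hyA, b, -, hb⟩ := hy'
    obtain ⟨p, hp, q, hq, hpq⟩ := cut hconn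
      (Finset.univ.filter fun i : Fin k => A.testBit (f i) = true) a b
      (Finset.mem_filter.mpr ⟨Finset.mem_univ a, by rw [ha]; exact hxA⟩)
      (fun h => by
        have := (Finset.mem_filter.mp h).2
        rw [hb] at this
        simp only at this
        rw [this] at hyA
        simp at hyA)
    have h4 := h3 (f p) (List.mem_range.mpr (f p).isLt)
    rw [List.all_eq_true] at h4
    have h5 := h4 (f q) (List.mem_range.mpr (f q).isLt)
    have hfp : f p ∈ s := Finset.mem_image_of_mem _ (Finset.mem_univ _)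
    have hfq : f q ∈ s := Finset.mem_image_of_mem _ (Finset.mem_univ _)
    rw [hmask _ (f p).isLt, hmask _ (f q).isLt] at h5
    have hpA : A.testBit (f p) = true := (Finset.mem_filter.mp hp).2
    have hqA : A.testBit (f q) = false := by
      by_contra hcon
      rw [Bool.not_eq_false] at hcon
      exact hq (Finset.mem_filter.mpr ⟨Finset.mem_univ _, hcon⟩)
    have e1 : ∀ z : Fin G.n, (⟨(z : ℕ), z.isLt⟩ : Fin G.n) = z := fun z => rfl
    rw [e1, e1, hpA, hqA] at h5
    simp only [hfp, hfq, decide_true, Bool.and_true, Bool.not_false, Bool.not_true,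
      Bool.false_or, beq_iff_eq] at h5
    apply hpq
    show G.w (f p) (f q) = 0
    rw [hw]; exact h5

/-! ### The graph `K_{4,4}` minus two disjoint edges -/

/-- Adjacency of `K_{4,4}` (parts `{0,1,2,3}` and `{4,5,6,7}`) minus the edges `04` and `15`. -/
def w1 (i j : ℕ) : ℕ :=
  if (i < 4 ∧ 4 ≤ j ∧ ¬ (j = i + 4 ∧ i < 2)) ∨ (j < 4 ∧ 4 ≤ i ∧ ¬ (i = j + 4 ∧ j < 2)) then 1
  else 0

def G1 : MG where
  n := 8
  w := fun i j => w1 i j
  symm := fun i j => by unfold w1; exact if_congr or_comm rfl rfl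

/-! ### The cube minus a vertex -/

/-- Adjacency of the 3-cube: the binary expansions differ in exactly one digit. -/
def w2 (i j : ℕ) : ℕ :=
  if Nat.xor i j = 1 ∨ Nat.xor i j = 2 ∨ Nat.xor i j = 4 then 1 else 0

/-- The cube (vertices `0, ..., 7`) minus the vertex `7`. -/
def G2 : MG where
  n := 7
  w := fun i j => w2 i j
  symm := fun i j => by
    unfold w2
    have : Nat.xor (i : ℕ) j = Nat.xor (j : ℕ) i := Nat.xor_comm _ _
    rw [this]

def tab1 : List (List ℕ) :=
  [[0, 1, 2, 3, 4], [1, 0, 2, 3, 5], [4, 5, 6, 7, 0], [5, 4, 6, 7, 1], [0, 1, 2, 3, 6],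
   [0, 1, 2, 3, 7], [4, 5, 6, 7, 2], [4, 5, 6, 7, 3], [0, 1, 2, 4, 5], [0, 1, 3, 4, 5],
   [4, 5, 6, 0, 1], [4, 5, 7, 0, 1], [0, 1, 2, 4, 6], [0, 1, 2, 4, 7], [1, 0, 2, 5, 6],
   [1, 0, 2, 5, 7], [0, 1, 3, 4, 6], [0, 1, 3, 4, 7], [1, 0, 3, 5, 6], [1, 0, 3, 5, 7],
   [4, 6, 7, 0, 1], [5, 6, 7, 1, 0], [0, 2, 3, 4, 5], [0, 2, 3, 4, 6], [0, 2, 3, 4, 7],
   [4, 5, 6, 0, 2], [4, 5, 7, 0, 2], [4, 6, 7, 0, 2], [4, 5, 6, 0, 3], [4, 5, 7, 0, 3],
   [4, 6, 7, 0, 3], [1, 2, 3, 5, 4], [1, 2, 3, 5, 6], [1, 2, 3, 5, 7], [5, 4, 6, 1, 2],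
   [5, 4, 7, 1, 2], [5, 6, 7, 1, 2], [5, 4, 6, 1, 3], [5, 4, 7, 1, 3], [5, 6, 7, 1, 3],
   [0, 1, 2, 6, 7], [0, 1, 3, 6, 7], [0, 2, 3, 5, 6], [0, 2, 3, 5, 7], [0, 2, 3, 6, 7],
   [5, 6, 7, 0, 2], [5, 6, 7, 0, 3], [1, 2, 3, 4, 6], [1, 2, 3, 4, 7], [1, 2, 3, 6, 7],
   [4, 6, 7, 1, 2], [4, 6, 7, 1, 3], [4, 5, 6, 2, 3], [4, 5, 7, 2, 3], [4, 6, 7, 2, 3],
   [5, 6, 7, 2, 3]]

def rep1 : List (List ℕ) :=
  [[0, 1, 2, 3, 4], [0, 1, 2, 3, 6], [0, 1, 2, 4, 5], [0, 1, 2, 4, 6], [0, 1, 2, 6, 7]]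

def tab2 : List (List ℕ) :=
  [[5, 6, 0, 2, 1], [3, 6, 0, 4, 1], [3, 5, 0, 4, 2], [2, 4, 1, 5, 3], [1, 4, 2, 6, 3],
   [5, 6, 3, 2, 1], [1, 2, 4, 6, 5], [3, 6, 5, 4, 1], [3, 5, 6, 4, 2], [4, 1, 2, 3, 0],
   [5, 0, 3, 2, 1], [6, 0, 3, 1, 2], [2, 1, 4, 5, 0], [1, 2, 4, 6, 0], [3, 0, 5, 4, 1],
   [6, 0, 5, 1, 4], [3, 0, 6, 4, 2], [5, 0, 6, 2, 4]]

def rep2 : List (List ℕ) := [[5, 6, 0, 2, 1], [4, 1, 2, 3, 0]]

lemma check1 : check w1 8 5 tab1 rep1 [] = true := by decide +kernel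

lemma check2 : check w2 7 5 tab2 rep2 (List.range 128) = true := by decide +kernel

/-! ### The rank numbers -/

instance : NeZero G1.n := ⟨by decide⟩
instance : NeZero G2.n := ⟨by decide⟩

lemma rep1_ok : ∀ R ∈ rep1, okL G1.n 5 R = true := by decide +kernel
lemma rep2_ok : ∀ R ∈ rep2, okL G2.n 5 R = true := by decide +kernel

lemma size_mk (K : MG) : size (mk K) = K.n := rfl

/-- at most five induced subgraphs of order 5 of `G1` -/
lemma r1_upper : r (mk K1) (mk G1) 4 ≤ 5 := by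
  rw [r]
  apply upper _ 5 (fun i => ind G1 (tup G1.n 5 (rep1.getD i [])))
  rintro K ⟨-, h2, h3⟩
  rw [size_mk] at h3
  obtain ⟨f, hf, rfl⟩ := exists_ind G1 5 K h2 h3
  rcases check_sound G1 w1 (fun i j => rfl) 5 tab1 rep1 [] check1 rep1_ok f hf with h | h
  · obtain ⟨R, hR, h⟩ := h
    rw [h]
    obtain ⟨j, hj, rfl⟩ := List.getElem_of_mem hR
    refine ⟨⟨j, hj⟩, ?_⟩
    congr 2
    exact (congrArg (tup G1.n 5) (List.getD_eq_getElem _ _ hj)).symm
  · exact absurd rfl h.1

lemma rc2_upper : rc (mk K1) (mk G2) 4 ≤ 2 := by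
  rw [rc]
  apply upper _ 2 (fun i => ind G2 (tup G2.n 5 (rep2.getD i [])))
  rintro K ⟨h1, -, h2, h3⟩
  rw [size_mk] at h3
  obtain ⟨f, hf, rfl⟩ := exists_ind G2 5 K h2 h3
  rcases check_sound G2 w2 (fun i j => rfl) 5 tab2 rep2 _ check2 rep2_ok f hf with h | h
  · obtain ⟨R, hR, h⟩ := h
    rw [h]
    obtain ⟨j, hj, rfl⟩ := List.getElem_of_mem hR
    refine ⟨⟨j, hj⟩, ?_⟩
    congr 2
    exact (congrArg (tup G2.n 5) (List.getD_eq_getElem _ _ hj)).symm
  · exact absurd (uconn_mk.mp h1) h.2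

lemma tup_inj {N : ℕ} [NeZero N] {k : ℕ} {t : List ℕ} (h : okL N k t = true) :
    Function.Injective (tup N k t) := by
  intro a b hab
  have h1 := congrArg Fin.val hab
  rw [tup_val h, tup_val h] at h1
  rw [okL, Bool.and_eq_true, Bool.and_eq_true, beq_iff_eq, decide_eq_true_eq] at h
  obtain ⟨⟨h2, -⟩, h3⟩ := h
  have ha : (a : ℕ) < t.length := by rw [h2]; exact a.isLt
  have hb : (b : ℕ) < t.length := by rw [h2]; exact b.isLt
  rw [List.getD_eq_getElem _ _ ha, List.getD_eq_getElem _ _ hb] at h1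
  exact Fin.ext ((List.Nodup.getElem_inj_iff h3).mp h1)

/-- membership of an induced subgraph in the interval -/
lemma mem_interval (G : MG) [NeZero G.n] (hs : ∀ i, G.w i i = 0) (k : ℕ) (t : List ℕ)
    (h : okL G.n (k + 1) t = true) :
    Le (mk K1) (mk (ind G (tup G.n (k + 1) t))) ∧ Le (mk (ind G (tup G.n (k + 1) t))) (mk G) ∧
      size (mk (ind G (tup G.n (k + 1) t))) = size (mk K1) + k := by
  refine ⟨le_mk.mpr (K1_le _ (Nat.succ_pos k) fun i => hs _),
    le_mk.mpr (emb_ind G _ (tup_inj h)), ?_⟩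
  rw [size_mk, size_mk]
  show k + 1 = 1 + k
  omega

lemma lower_r (G : MG) [NeZero G.n] (hs : ∀ i, G.w i i = 0) (k : ℕ) (L : List (List ℕ))
    (hL : ∀ R ∈ L, okL G.n (k + 1) R = true)
    (hinv : (L.map fun R => (I1 (ind G (tup G.n (k + 1) R)), I2 (ind G (tup G.n (k + 1) R)))).Nodup) :
    L.length ≤ r (mk K1) (mk G) k := by
  rw [r]
  apply lower _ ?_ L.length (fun i => ind G (tup G.n (k + 1) L[i]))
  · intro i
    exact mem_interval G hs k _ (hL _ (List.getElem_mem _))
  · intro i j h1 h2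
    have h3 := List.Nodup.getElem_inj_iff hinv (i := i) (j := j) (hi := by simp) (hj := by simp)
    apply Fin.ext
    rw [← h3, List.getElem_map, List.getElem_map, Prod.mk.injEq]
    exact ⟨h1, h2⟩
  · apply Set.Finite.subset (finite_le G (k + 1))
    rintro K ⟨-, h2, h3⟩
    refine ⟨h2, ?_⟩
    rw [h3, size_mk]
    show 1 + k = k + 1
    omega

lemma lower_rc (G : MG) [NeZero G.n] (hs : ∀ i, G.w i i = 0) (k : ℕ) (L : List (List ℕ))
    (hL : ∀ R ∈ L, okL G.n (k + 1) R = true)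
    (hc : ∀ R ∈ L, Conn (ind G (tup G.n (k + 1) R)))
    (hinv : (L.map fun R => (I1 (ind G (tup G.n (k + 1) R)), I2 (ind G (tup G.n (k + 1) R)))).Nodup) :
    L.length ≤ rc (mk K1) (mk G) k := by
  rw [rc]
  apply lower _ ?_ L.length (fun i => ind G (tup G.n (k + 1) L[i]))
  · intro i
    exact ⟨uconn_mk.mpr (hc _ (List.getElem_mem _)), mem_interval G hs k _ (hL _ (List.getElem_mem _))⟩
  · intro i j h1 h2
    have h3 := List.Nodup.getElem_inj_iff hinv (i := i) (j := j) (hi := by simp) (hj := by simp)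
    apply Fin.ext
    rw [← h3, List.getElem_map, List.getElem_map, Prod.mk.injEq]
    exact ⟨h1, h2⟩
  · apply Set.Finite.subset (finite_le G (k + 1))
    rintro K ⟨-, -, h2, h3⟩
    refine ⟨h2, ?_⟩
    rw [h3, size_mk]
    show 1 + k = k + 1
    omega

def connL (w : ℕ → ℕ → ℕ) (k : ℕ) (t : List ℕ) : Bool :=
  (List.range k).all fun i => i == 0 || (List.range i).any fun j =>
    w (t.getD j 0) (t.getD i 0) != 0

lemma conn_of_connL (G : MG) (w : ℕ → ℕ → ℕ) [NeZero G.n] (hw : ∀ i j, G.w i j = w i j) (k : ℕ)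
    (t : List ℕ) (ht : okL G.n (k + 1) t = true) (hc : connL w (k + 1) t = true) :
    Conn (ind G (tup G.n (k + 1) t)) := by
  rw [connL, List.all_eq_true] at hc
  have hex : ∀ i : Fin (k + 1), (i : ℕ) ≠ 0 → ∃ j : Fin (k + 1), (j : ℕ) < i ∧
      G.w (tup G.n (k + 1) t j) (tup G.n (k + 1) t i) ≠ 0 := by
    intro i hi
    have h1 := hc i (List.mem_range.mpr i.isLt)
    rw [Bool.or_eq_true, beq_iff_eq, List.any_eq_true] at h1
    rcases h1 with h1 | ⟨j, hj, h1⟩
    · exact absurd h1 hi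
    · rw [List.mem_range] at hj
      have hi' := i.isLt
      refine ⟨⟨j, by omega⟩, hj, ?_⟩
      rw [hw, tup_val ht, tup_val ht]
      simpa using h1
  exact conn_of_exists (ind G (tup G.n (k + 1) t)) (Nat.succ_pos k) hex

lemma G1_loopless : ∀ i, G1.w i i = 0 := by
  show ∀ i : Fin 8, w1 i i = 0
  decide +kernel

lemma G2_loopless : ∀ i, G2.w i i = 0 := by
  show ∀ i : Fin 7, w2 i i = 0
  decide +kernel

lemma G1_simple : Simple G1 := by
  refine ⟨G1_loopless, ?_⟩
  show ∀ i j : Fin 8, w1 i j ≤ 1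
  decide +kernel

lemma G2_simple : Simple G2 := by
  refine ⟨G2_loopless, ?_⟩
  show ∀ i j : Fin 7, w2 i j ≤ 1
  decide +kernel

lemma r1_3 : 6 ≤ r (mk K1) (mk G1) 3 :=
  lower_r G1 G1_loopless 3
    [[0, 1, 2, 3], [0, 1, 2, 4], [0, 1, 2, 6], [0, 1, 4, 5], [0, 4, 1, 6], [0, 1, 6, 7]]
    (by decide +kernel) (by decide +kernel)

lemma r1_5 : 6 ≤ r (mk K1) (mk G1) 5 :=
  lower_r G1 G1_loopless 5
    [[0, 1, 2, 3, 4, 5], [0, 1, 2, 3, 4, 6], [0, 1, 2, 3, 6, 7], [0, 1, 2, 4, 5, 6],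
      [0, 1, 2, 4, 6, 7], [0, 2, 3, 5, 6, 7]]
    (by decide +kernel) (by decide +kernel)

lemma conn_list (k : ℕ) (L : List (List ℕ)) (hL : ∀ R ∈ L, okL G2.n (k + 1) R = true)
    (hc : ∀ R ∈ L, connL w2 (k + 1) R = true) : ∀ R ∈ L, Conn (ind G2 (tup G2.n (k + 1) R)) :=
  fun R hR => conn_of_connL G2 w2 (fun _ _ => rfl) k R (hL R hR) (hc R hR)

lemma rc2_3 : 3 ≤ rc (mk K1) (mk G2) 3 :=
  lower_rc G2 G2_loopless 3 [[1, 0, 2, 4], [2, 0, 1, 5], [0, 1, 3, 2]] (by decide +kernel)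
    (conn_list 3 _ (by decide +kernel) (by decide +kernel)) (by decide +kernel)

lemma rc2_5 : 3 ≤ rc (mk K1) (mk G2) 5 :=
  lower_rc G2 G2_loopless 5 [[5, 1, 0, 3, 2, 6], [1, 5, 4, 6, 2, 3], [2, 3, 1, 5, 4, 0]]
    (by decide +kernel)
    (conn_list 5 _ (by decide +kernel) (by decide +kernel)) (by decide +kernel)

lemma not_unimodal {N : ℕ} {r : ℕ → ℕ} {a b c : ℕ} (hab : a ≤ b) (hbc : b ≤ c) (hc : c ≤ N)
    (h1 : r b < r a) (h2 : r b < r c) : ¬ Unimodal N r := by
  rintro ⟨m, hm, h3, h4⟩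
  rcases le_total b m with h | h
  · have := h3 a b hab h
    omega
  · have := h4 b c h hbc hc
    omega

lemma conn_G2 : Conn G2 := by
  refine conn_of_parent G2 (by decide) (fun i => ?_) ?_
  · exact (![0, 0, 0, 1, 0, 1, 2] : Fin 7 → Fin 7) i
  · show ∀ i : Fin 7, (i : ℕ) ≠ 0 → (((![0, 0, 0, 1, 0, 1, 2] : Fin 7 → Fin 7) i : Fin 7) : ℕ) < i ∧
      w2 ((![0, 0, 0, 1, 0, 1, 2] : Fin 7 → Fin 7) i) i ≠ 0
    decide +kernel

lemma conn_K1 : Conn K1 :=
  conn_of_parent K1 (by decide) id (by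
    show ∀ i : Fin 1, (i : ℕ) ≠ 0 → ((id i : Fin 1) : ℕ) < i ∧ (0 : ℕ) ≠ 0
    decide)

/-- **MP_207d4d, Q1 (negative answer).**  Both parts fail, already for simple graphs:
(1) for the simple graph `G1 = K_{4,4}` minus two disjoint edges (8 vertices), the interval from
the one-vertex graph to `G1` in the poset of all graphs is not unimodal;
(2) for the simple connected graph `G2` = the 3-cube minus a vertex (7 vertices), the interval from
the one-vertex graph to `G2` in the poset of connected graphs is not unimodal. -/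
theorem result :
    (Simple G1 ∧ Le (mk K1) (mk G1) ∧
      ¬ Unimodal (size (mk G1) - size (mk K1)) (r (mk K1) (mk G1))) ∧
    (Simple G2 ∧ UConn (mk K1) ∧ UConn (mk G2) ∧ Le (mk K1) (mk G2) ∧
      ¬ Unimodal (size (mk G2) - size (mk K1)) (rc (mk K1) (mk G2))) := by
  refine ⟨⟨G1_simple, le_mk.mpr (K1_le _ (by decide) G1_loopless), ?_⟩,
    ⟨G2_simple, uconn_mk.mpr conn_K1, uconn_mk.mpr conn_G2,
      le_mk.mpr (K1_le _ (by decide) G2_loopless), ?_⟩⟩
  · apply not_unimodal (a := 3) (b := 4) (c := 5) (by norm_num) (by norm_num)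
    · show 5 ≤ 8 - 1
      norm_num
    · have h1 := r1_upper
      have h2 := r1_3
      omega
    · have h1 := r1_upper
      have h2 := r1_5
      omega
  · apply not_unimodal (a := 3) (b := 4) (c := 5) (by norm_num) (by norm_num)
    · show 5 ≤ 7 - 1
      norm_num
    · have h1 := rc2_upper
      have h2 := rc2_3
      omega
    · have h1 := rc2_upper
      have h2 := rc2_5
      omega

end Pool.Agent.Results.MP_207d4d_co.NotUnimodal
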